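import Mathlib

/-!
# GV-ALG-Core: the determinant identity

`charpoly(M) (X² - c²)^d = det(X + c W) det(X² + 2c² - X T)`, `T = r i`.

Plan.  Both sides are polynomials over `ℚ`; it is enough to compare the values at all `x : ℚ` with
`x² ≠ c²` (infinitely many: `Polynomial.eq_of_infinite_eval_eq`).  Evaluate:
`det(x - M) = det((x + cW) - i r)`.  `(x + cW)(x - cW) = (x² - c²) 1` so `x + cW` is invertible
with inverse `(x² - c²)⁻¹ (x - cW)`.  Hence
`det(x - M) = det(x + cW) det(1 - (x + cW)⁻¹ i r) = det(x + cW) det(1 - r (x + cW)⁻¹ i)`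
(`Matrix.det_one_sub_mul_comm` or `Matrix.det_one_add_mul_comm`).
Now `r W i = 3c 1`: `i (r W i) = (M + cW) W i = M W i + c i = 3c i` (`W W = 1`, `h2`) and `l i = 1`.
So `r (x + cW)⁻¹ i = (x² - c²)⁻¹ (x T - 3c² 1)` and
`(x² - c²)^d det(1 - r (x+cW)⁻¹ i) = det((x² - c²) - x T + 3c²) = det(x² + 2c² - x T)`.
Evaluation of determinants of polynomial matrices: `Matrix.eval_det`, `Matrix.eval_charpoly` or
`RingHom.map_det`.
-/

namespace Pool.Agent.GV

open Polynomial Matrix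

/-- `det((X² + 2c²) 1 - X T)` -/
noncomputable def qpol {d : ℕ} (T : Matrix (Fin d) (Fin d) ℚ) (c : ℚ) : ℚ[X] :=
  Matrix.det (((X : ℚ[X]) ^ 2 + C (2 * c ^ 2)) • (1 : Matrix (Fin d) (Fin d) ℚ[X]) -
    (X : ℚ[X]) • (T.map C : Matrix (Fin d) (Fin d) ℚ[X]))

theorem core {n d : ℕ} (M W : Matrix (Fin n) (Fin n) ℚ) (i : Matrix (Fin n) (Fin d) ℚ)
    (r l : Matrix (Fin d) (Fin n) ℚ) (c : ℚ) (hW : W * W = 1) (h1 : M + c • W = i * r)
    (h2 : M * W * i = (2 * c) • i) (hl : l * i = 1) :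
    M.charpoly * (X ^ 2 - C (c ^ 2)) ^ d = (-(c • W)).charpoly * qpol (r * i) c := by
  have hrWi : r * W * i = (3 * c) • (1 : Matrix (Fin d) (Fin d) ℚ) := by
    have e1 : i * (r * W * i) = (3 * c) • i := by
      calc i * (r * W * i) = (i * r) * W * i := by simp only [Matrix.mul_assoc]
        _ = M * W * i + c • (W * W * i) := by
            rw [← h1, Matrix.add_mul, Matrix.add_mul, Matrix.smul_mul, Matrix.smul_mul]
        _ = (3 * c) • i := by
            rw [h2, hW, Matrix.one_mul, ← add_smul]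
            congr 1
            ring
    calc r * W * i = (l * i) * (r * W * i) := by rw [hl, Matrix.one_mul]
      _ = l * (i * (r * W * i)) := by rw [Matrix.mul_assoc]
      _ = (3 * c) • (1 : Matrix (Fin d) (Fin d) ℚ) := by rw [e1, Matrix.mul_smul, hl]
  have hinf : Set.Infinite {x : ℚ | x ^ 2 ≠ c ^ 2} := by
    have h : Set.Finite {x : ℚ | x ^ 2 = c ^ 2} := by
      refine Set.Finite.subset (Set.toFinite {c, -c}) ?_
      intro x hx
      have hx' : x ^ 2 = c ^ 2 := hx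
      rcases sq_eq_sq_iff_eq_or_eq_neg.1 hx' with h | h
      · exact Or.inl h
      · exact Or.inr h
    exact h.infinite_compl
  refine Polynomial.eq_of_infinite_eval_eq _ _ (hinf.mono ?_)
  intro x hx
  have hx' : x ^ 2 ≠ c ^ 2 := hx
  have hs : x ^ 2 - c ^ 2 ≠ 0 := sub_ne_zero.2 hx'
  set s : ℚ := x ^ 2 - c ^ 2 with hsdef
  show eval x (M.charpoly * (X ^ 2 - C (c ^ 2)) ^ d) = eval x ((-(c • W)).charpoly * qpol (r * i) c)
  have hq : ∀ T : Matrix (Fin d) (Fin d) ℚ, eval x (qpol T c) =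
      Matrix.det ((x ^ 2 + 2 * c ^ 2) • (1 : Matrix (Fin d) (Fin d) ℚ) - x • T) := by
    intro T
    rw [qpol, ← Polynomial.coe_evalRingHom, RingHom.map_det]
    congr 1
    ext a b
    by_cases hab : a = b
    · subst hab
      simp
      ring
    · simp [Matrix.one_apply_ne hab]
      ring
  rw [Polynomial.eval_mul, Polynomial.eval_mul, hq, Matrix.eval_charpoly, Matrix.eval_charpoly]
  simp only [eval_pow, eval_sub, eval_X, eval_C]
  rw [← hsdef]
  have hPQ : (x • (1 : Matrix (Fin n) (Fin n) ℚ) + c • W) * (s⁻¹ • (x • 1 - c • W)) = 1 := by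
    rw [Matrix.mul_smul, Matrix.add_mul, Matrix.mul_sub, Matrix.mul_sub]
    simp only [Matrix.smul_mul, Matrix.mul_smul, Matrix.one_mul, Matrix.mul_one, hW, smul_smul]
    have e : x * x - c * c = s := by rw [hsdef]; ring
    have e2 : (x * x) • (1 : Matrix (Fin n) (Fin n) ℚ) - (c * x) • W +
        ((x * c) • W - (c * c) • 1) = s • 1 := by
      rw [← e, sub_smul, mul_comm c x]
      abel
    rw [e2, smul_smul, inv_mul_cancel₀ hs, one_smul]
  have hsc : (Matrix.scalar (Fin n)) x - M = (x • (1 : Matrix (Fin n) (Fin n) ℚ) + c • W) - i * r := by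
    rw [← h1, Matrix.scalar_apply, ← Matrix.smul_one_eq_diagonal]
    abel
  have hsc2 : (Matrix.scalar (Fin n)) x - -(c • W) = x • (1 : Matrix (Fin n) (Fin n) ℚ) + c • W := by
    rw [Matrix.scalar_apply, ← Matrix.smul_one_eq_diagonal, sub_neg_eq_add]
  rw [hsc, hsc2]
  set P : Matrix (Fin n) (Fin n) ℚ := x • (1 : Matrix (Fin n) (Fin n) ℚ) + c • W with hP
  set Qm : Matrix (Fin n) (Fin n) ℚ := s⁻¹ • (x • 1 - c • W) with hQm
  have e1 : P - i * r = P * (1 - (Qm * i) * r) := by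
    rw [Matrix.mul_sub, Matrix.mul_one, ← Matrix.mul_assoc, ← Matrix.mul_assoc, hPQ, Matrix.one_mul]
  rw [e1, Matrix.det_mul, Matrix.det_one_sub_mul_comm]
  have e2 : 1 - r * (Qm * i) =
      s⁻¹ • ((x ^ 2 + 2 * c ^ 2) • (1 : Matrix (Fin d) (Fin d) ℚ) - x • (r * i)) := by
    have e3 : r * (Qm * i) = s⁻¹ • (x • (r * i) - (c * (3 * c)) • (1 : Matrix (Fin d) (Fin d) ℚ)) := by
      rw [hQm, Matrix.smul_mul, Matrix.mul_smul, Matrix.sub_mul, Matrix.mul_sub, Matrix.smul_mul,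
        Matrix.smul_mul, Matrix.one_mul, Matrix.mul_smul, Matrix.mul_smul, ← Matrix.mul_assoc r W i,
        hrWi, smul_smul]
    have e5 : (x ^ 2 + 2 * c ^ 2 : ℚ) = s + c * (3 * c) := by rw [hsdef]; ring
    have e6 : (s + c * (3 * c)) • (1 : Matrix (Fin d) (Fin d) ℚ) - x • (r * i) =
        s • 1 - (x • (r * i) - (c * (3 * c)) • (1 : Matrix (Fin d) (Fin d) ℚ)) := by
      rw [add_smul]
      abel
    rw [e3, e5, e6, smul_sub s⁻¹ (s • (1 : Matrix (Fin d) (Fin d) ℚ)), smul_smul s⁻¹ s,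
      inv_mul_cancel₀ hs, one_smul]
  rw [e2, Matrix.det_smul, Fintype.card_fin, inv_pow]
  field_simp

end Pool.Agent.GV
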