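import Pool.Agent.GV.Basic

/-!
# GV-ALG definitions: old and new part, in `ℚ[y]`

A form of weight `4 a + 2 e`, `F_e ∑ p_j φ^(a-j) ψ^j`, is represented by the polynomial
`p = ∑ p_j X^j` of degree `≤ a` (`X = ψ / φ`).  `Ulin e a` is `U_2`, `Wlin e a` the Atkin-Lehner
involution `φ ↦ 64 ψ`, `ψ ↦ φ / 64`, `E ↦ -E`; `G e a z` are the forms of level one
`E_4^(a-3z) Δ^z` (`e = 0`) and `E_6 E_4^(a-1-3z) Δ^z` (`e = 1`), where
`E_4 = φ + 256 ψ`, `Δ = φ² ψ`, `E_6 = E (φ - 512 ψ)`.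
-/

namespace Pool.Agent.GV

open Polynomial

/-- `U_2 (F_e φ^(a-j) ψ^j)` -/
noncomputable def ucol (e : Bool) (a j : ℕ) : ℚ[X] :=
  ∑ l ∈ Finset.range (a + 1), C (Mcoef e a l j) * X ^ l

/-- `U_2` -/
noncomputable def Ulin (e : Bool) (a : ℕ) (p : ℚ[X]) : ℚ[X] :=
  ∑ j ∈ Finset.range (a + 1), C (p.coeff j) * ucol e a j

/-- the sign of the Atkin-Lehner involution on `F_e` -/
def sgn (e : Bool) : ℚ := bif e then -1 else 1

/-- `c = 2^(2a + e - 1) = 2^(k/2 - 1)` -/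
def cst (e : Bool) (a : ℕ) : ℚ := 2 ^ (2 * a) * (bif e then 1 else 1 / 2)

/-- the Atkin-Lehner involution -/
noncomputable def Wlin (e : Bool) (a : ℕ) (p : ℚ[X]) : ℚ[X] :=
  ∑ j ∈ Finset.range (a + 1), C (sgn e * p.coeff j * (64 ^ a / 4096 ^ j)) * X ^ (a - j)

/-- forms of level one -/
noncomputable def G (e : Bool) (a z : ℕ) : ℚ[X] :=
  bif e then (1 - C 512 * X) * (1 + C 256 * X) ^ (a - 1 - 3 * z) * X ^ z
  else (1 + C 256 * X) ^ (a - 3 * z) * X ^ z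

/-- the dimension of the space of cusp forms of level one -/
def dd (e : Bool) (a : ℕ) : ℕ := bif e then (a - 1) / 3 else a / 3

/-- the matrix of the Atkin-Lehner involution on cusp forms, size `a - 1` -/
def Wmat (e : Bool) (a : ℕ) : Matrix (Fin (a - 1)) (Fin (a - 1)) ℚ :=
  Matrix.of fun i j => if (i : ℕ) + j + 2 = a then sgn e * (64 ^ a / 4096 ^ ((j : ℕ) + 1)) else 0

/-- the matrix whose columns are the level one cusp forms `G e a (z+1)` -/
noncomputable def Imat (e : Bool) (a : ℕ) : Matrix (Fin (a - 1)) (Fin (dd e a)) ℚ :=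
  Matrix.of fun i z => (G e a ((z : ℕ) + 1)).coeff ((i : ℕ) + 1)

end Pool.Agent.GV
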