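import Pool.Agent.GV.ALG.Core

/-!
# GV-ALG-Sym: the roots of the two factors

`K` an algebraically closed field of characteristic zero.
* `roots_W`: every root of `charpoly(-cW)`, `W² = 1`, is `c` or `-c`.
  Plan: a root `x` is an eigenvalue of `-cW` mapped to `K`: there is `v ≠ 0` with `-c W v = x v`,
  so `c² v = x² v`.  Or: `(x + cW)(x - cW) = x² - c²`, take determinants.
* `roots_q`: the roots of `qpol T c` in `K` are `∑_t {x_t, 2c²/x_t}` over the eigenvalues `t` of `T`,
  where `x_t` is a root of `X² - t X + 2c²` (non-zero as `c ≠ 0`).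
  Plan: `T.charpoly` splits over `K`: `charpoly = ∏ (X - t)`; `det(s 1 - x T) = x^d charpoly_T(s/x)`
  for `x ≠ 0` gives `qpol.map = ∏_t (X² + 2c² - t X)`, comparing values at all `x ≠ 0`.  Each
  quadratic factor is `(X - x_t)(X - 2c²/x_t)`.
-/

namespace Pool.Agent.GV

open Polynomial Matrix

theorem roots_W {n : ℕ} (K : Type*) [Field K] [CharZero K] [Algebra ℚ K]
    (W : Matrix (Fin n) (Fin n) ℚ) (c : ℚ) (hW : W * W = 1) (x : K)
    (hx : x ∈ ((-(c • W)).charpoly.map (algebraMap ℚ K)).roots) :
    x = algebraMap ℚ K c ∨ x = -algebraMap ℚ K c := by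
  have h1 := (Polynomial.mem_roots'.1 hx).2
  rw [← Matrix.charpoly_map, Polynomial.IsRoot.def, Matrix.eval_charpoly] at h1
  set WK : Matrix (Fin n) (Fin n) K := W.map (algebraMap ℚ K) with hWK
  have hWK2 : WK * WK = 1 := by
    rw [hWK, ← Matrix.map_mul, hW, Matrix.map_one _ (map_zero _) (map_one _)]
  have h2 : (-(c • W)).map (algebraMap ℚ K) = -(algebraMap ℚ K c • WK) := by
    ext i j
    simp [hWK]
  rw [h2] at h1
  have h3 : (scalar (Fin n) x - -(algebraMap ℚ K c • WK)) *
      (scalar (Fin n) x - algebraMap ℚ K c • WK) =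
      scalar (Fin n) (x ^ 2 - (algebraMap ℚ K c) ^ 2) := by
    have h4 : scalar (Fin n) x = x • (1 : Matrix (Fin n) (Fin n) K) := by
      ext i j; simp [Matrix.scalar_apply, Matrix.diagonal_apply, Matrix.one_apply]
    have h5 : scalar (Fin n) (x ^ 2 - (algebraMap ℚ K c) ^ 2) =
        (x ^ 2 - (algebraMap ℚ K c) ^ 2) • (1 : Matrix (Fin n) (Fin n) K) := by
      ext i j; simp [Matrix.scalar_apply, Matrix.diagonal_apply, Matrix.one_apply]
    rw [h4, h5]
    simp only [sub_neg_eq_add, add_mul, mul_sub, smul_mul_assoc, mul_smul_comm, one_mul, mul_one,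
      hWK2]
    module
  have h6 := congrArg Matrix.det h3
  rw [Matrix.det_mul, h1, zero_mul] at h6
  have h7 : (scalar (Fin n) (x ^ 2 - (algebraMap ℚ K c) ^ 2)).det =
      (x ^ 2 - (algebraMap ℚ K c) ^ 2) ^ n := by
    rw [Matrix.scalar_apply, Matrix.det_diagonal]
    simp
  rw [h7] at h6
  have h8 : x ^ 2 - (algebraMap ℚ K c) ^ 2 = 0 := by
    by_contra h
    exact pow_ne_zero n h h6.symm
  exact sq_eq_sq_iff_eq_or_eq_neg.1 (sub_eq_zero.1 h8)

private theorem quad_factor {K : Type*} [Field K] [IsAlgClosed K] {e : K} (he : e ≠ 0) (t : K) :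
    ∃ y : K, y ≠ 0 ∧ (X ^ 2 + C e - C t * X : K[X]) = (X - C y) * (X - C (e / y)) := by
  have hdeg : (X ^ 2 + C e - C t * X : K[X]).degree ≠ 0 := by
    have : (X ^ 2 + C e - C t * X : K[X]).degree = 2 := by compute_degree!
    rw [this]; norm_num
  obtain ⟨y, hy⟩ := IsAlgClosed.exists_root _ hdeg
  have hy' : y ^ 2 + e - t * y = 0 := by
    simpa [Polynomial.IsRoot] using hy
  have hy0 : y ≠ 0 := by
    rintro rfl
    apply he
    simpa using hy'
  refine ⟨y, hy0, ?_⟩
  have h1 : t = y + e / y := by
    field_simp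
    linear_combination -hy'
  have h2 : e = y * (e / y) := by field_simp
  have h3 : (C e : K[X]) = C y * C (e / y) := by rw [← C_mul, ← h2]
  rw [h1, h3, C_add]
  ring

private theorem roots_prod_quad {K : Type*} [Field K] [IsAlgClosed K] {e : K} (he : e ≠ 0)
    (ms : Multiset K) :
    (ms.map fun t => (X ^ 2 + C e - C t * X : K[X])).prod ≠ 0 ∧
    Multiset.card (ms.map fun t => (X ^ 2 + C e - C t * X : K[X])).prod.roots =
      2 * Multiset.card ms ∧
    (0 : K) ∉ (ms.map fun t => (X ^ 2 + C e - C t * X : K[X])).prod.roots ∧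
    ((ms.map fun t => (X ^ 2 + C e - C t * X : K[X])).prod.roots).map (fun x => e / x) =
      (ms.map fun t => (X ^ 2 + C e - C t * X : K[X])).prod.roots := by
  induction ms using Multiset.induction_on with
  | empty => simp
  | cons t ms ih =>
    obtain ⟨h0, h1, h2, h3⟩ := ih
    obtain ⟨y, hy0, hy⟩ := quad_factor he t
    rw [Multiset.map_cons, Multiset.prod_cons]
    set Q := (ms.map fun t => (X ^ 2 + C e - C t * X : K[X])).prod with hQ
    rw [hy]
    have hq0 : ((X - C y) * (X - C (e / y)) : K[X]) ≠ 0 :=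
      mul_ne_zero (X_sub_C_ne_zero _) (X_sub_C_ne_zero _)
    have hr : ((X - C y) * (X - C (e / y)) * Q : K[X]).roots =
        y ::ₘ (e / y) ::ₘ Q.roots := by
      rw [roots_mul (mul_ne_zero hq0 h0), roots_mul hq0, roots_X_sub_C, roots_X_sub_C]
      simp
    rw [hr]
    refine ⟨mul_ne_zero hq0 h0, ?_, ?_, ?_⟩
    · simp only [Multiset.card_cons, h1]
      ring
    · simp only [Multiset.mem_cons, not_or]
      exact ⟨hy0.symm, (div_ne_zero he hy0).symm, h2⟩
    · simp only [Multiset.map_cons, h3]
      have h4 : e / (e / y) = y := by field_simp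
      rw [h4, Multiset.cons_swap]

private theorem prod_quad_eval {K : Type*} [Field K] {x : K} (hx : x ≠ 0) (e : K)
    (ms : Multiset K) :
    x ^ Multiset.card ms * (ms.map fun t => (x ^ 2 + e) / x - t).prod =
      (ms.map (eval x ∘ fun t => (X ^ 2 + C e - C t * X : K[X]))).prod := by
  induction ms using Multiset.induction_on with
  | empty => simp
  | cons t ms ih =>
    rw [Multiset.map_cons, Multiset.prod_cons, Multiset.card_cons, Multiset.map_cons,
      Multiset.prod_cons, ← ih]
    have h : eval x (X ^ 2 + C e - C t * X : K[X]) = x * ((x ^ 2 + e) / x - t) := by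
      simp only [eval_sub, eval_add, eval_pow, eval_X, eval_C, eval_mul]
      field_simp
    rw [Function.comp_apply, h]
    ring

theorem roots_q {d : ℕ} (K : Type*) [Field K] [CharZero K] [Algebra ℚ K] [IsAlgClosed K]
    (T : Matrix (Fin d) (Fin d) ℚ) (c : ℚ) (hc : c ≠ 0) :
    Multiset.card ((qpol T c).map (algebraMap ℚ K)).roots = 2 * d ∧
    (0 : K) ∉ ((qpol T c).map (algebraMap ℚ K)).roots ∧
    (((qpol T c).map (algebraMap ℚ K)).roots).map (fun x => algebraMap ℚ K (2 * c ^ 2) / x) =
      ((qpol T c).map (algebraMap ℚ K)).roots := by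
  have he : algebraMap ℚ K (2 * c ^ 2) ≠ 0 := by
    rw [Ne, map_eq_zero]
    positivity
  set e : K := algebraMap ℚ K (2 * c ^ 2) with he'
  set TK : Matrix (Fin d) (Fin d) K := T.map (algebraMap ℚ K) with hTK
  have hsp : TK.charpoly = (TK.charpoly.roots.map fun t => X - C t).prod := by
    have := (IsAlgClosed.splits TK.charpoly).eq_prod_roots
    rwa [(Matrix.charpoly_monic TK).leadingCoeff, C_1, one_mul] at this
  have hcard : Multiset.card TK.charpoly.roots = d := by
    have h1 := (IsAlgClosed.splits TK.charpoly).natDegree_eq_card_roots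
    rw [← h1, Matrix.charpoly_natDegree_eq_dim]
    simp
  have hQ : (qpol T c).map (algebraMap ℚ K) =
      (TK.charpoly.roots.map fun t => (X ^ 2 + C e - C t * X : K[X])).prod := by
    apply Polynomial.eq_of_infinite_eval_eq
    have hinf : (({0} : Set K)ᶜ).Infinite := (Set.finite_singleton (0 : K)).infinite_compl
    refine hinf.mono ?_
    intro x hx
    have hx0 : x ≠ 0 := by simpa using hx
    have h1 : eval x ((qpol T c).map (algebraMap ℚ K)) =
        ((x ^ 2 + e) • (1 : Matrix (Fin d) (Fin d) K) - x • TK).det := by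
      rw [qpol, ← coe_mapRingHom, ← coe_evalRingHom, ← RingHom.comp_apply, RingHom.map_det]
      congr 1
      ext i j
      by_cases hij : i = j
      · subst hij
        simp [he', hTK]
        ring
      · simp [hTK, hij]
        ring
    have h2 : ((x ^ 2 + e) • (1 : Matrix (Fin d) (Fin d) K) - x • TK) =
        x • (scalar (Fin d) ((x ^ 2 + e) / x) - TK) := by
      ext i j
      by_cases hij : i = j
      · subst hij
        simp
        field_simp
      · simp [hij]
    show eval x ((qpol T c).map (algebraMap ℚ K)) = eval x _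
    have h4 : TK.charpoly.eval ((x ^ 2 + e) / x) =
        (TK.charpoly.roots.map fun t => (x ^ 2 + e) / x - t).prod := by
      conv_lhs => rw [hsp]
      rw [eval_multiset_prod, Multiset.map_map]
      congr 1
      exact Multiset.map_congr rfl fun t _ => by simp
    have h5 := prod_quad_eval hx0 e TK.charpoly.roots
    rw [hcard] at h5
    rw [h1, h2, Matrix.det_smul, ← Matrix.eval_charpoly, h4, Fintype.card_fin,
      eval_multiset_prod, Multiset.map_map, h5]
  rw [hQ]
  obtain ⟨-, h1, h2, h3⟩ := roots_prod_quad he TK.charpoly.roots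
  exact ⟨by rw [h1, hcard], h2, h3⟩

end Pool.Agent.GV
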