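import Pool.Agent.GV.ALG.Mats
import Pool.Agent.GV.ALG.Core
import Pool.Agent.GV.ALG.Sym

/-!
# GV-ALG-Final: symmetry of the eigenvalues of `U_2`

Plan: `core` applied to `Mmat`, `Wmat`, `Imat`, `r`, `l` from file Mats (`Wmat_sq`).  Map to `K`, take
roots (`Polynomial.roots_mul`, `roots_pow`; all polynomials are non-zero: the left side is monic).
`S1 = dd • {c, -c}` (roots of `(X² - c²)^d = ((X - c)(X + c))^d`), `S2 = ` roots of
`charpoly(-cW)`, `Q = ` roots of `qpol`.
-/

namespace Pool.Agent.GV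

open Polynomial Matrix

private lemma cst_ne_zero (e : Bool) (a : ℕ) : cst e a ≠ 0 := by
  unfold cst
  cases e <;> simp

theorem alg_final (K : Type*) [Field K] [CharZero K] [Algebra ℚ K] [IsAlgClosed K]
    (e : Bool) (a : ℕ) (ha : 1 ≤ a) :
    ∃ Q S1 S2 : Multiset K,
      ((Mmat e a).charpoly.map (algebraMap ℚ K)).roots + S1 = S2 + Q ∧
      Multiset.card Q = 2 * dd e a ∧ (0 : K) ∉ Q ∧
      Q.map (fun x => algebraMap ℚ K (2 * cst e a ^ 2) / x) = Q ∧
      (∀ x ∈ S1, x = algebraMap ℚ K (cst e a) ∨ x = -algebraMap ℚ K (cst e a)) ∧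
      (∀ x ∈ S2, x = algebraMap ℚ K (cst e a) ∨ x = -algebraMap ℚ K (cst e a)) := by
  obtain ⟨r, hr⟩ := exists_rho e a ha
  obtain ⟨l, hl⟩ := exists_left_inv e a ha
  have hcore := core (Mmat e a) (Wmat e a) (Imat e a) r l (cst e a) (Wmat_sq e a) hr
    (M_W_I e a ha) hl
  have hmap := congrArg (Polynomial.map (algebraMap ℚ K)) hcore
  rw [Polynomial.map_mul, Polynomial.map_mul] at hmap
  obtain ⟨h1, h2, h3⟩ := roots_q K (r * Imat e a) (cst e a) (cst_ne_zero e a)
  have hmon : (Mmat e a).charpoly.Monic := Matrix.charpoly_monic _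
  have hsq : ((X : ℚ[X]) ^ 2 - C (cst e a ^ 2)).Monic := by
    apply monic_X_pow_sub_C
    norm_num
  have hne : ((Mmat e a).charpoly.map (algebraMap ℚ K)) *
      ((X ^ 2 - C (cst e a ^ 2)) ^ dd e a : ℚ[X]).map (algebraMap ℚ K) ≠ 0 :=
    mul_ne_zero (hmon.map _).ne_zero ((hsq.pow _).map _).ne_zero
  have hne2 := hmap ▸ hne
  have hroots := congrArg Polynomial.roots hmap
  rw [Polynomial.roots_mul hne, Polynomial.roots_mul hne2] at hroots
  refine ⟨_, _, _, hroots, h1, h2, h3, ?_, ?_⟩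
  · intro x hx
    rw [Polynomial.mem_roots ((hsq.pow _).map _).ne_zero] at hx
    have hx' : (x ^ 2 - algebraMap ℚ K (cst e a) ^ 2) ^ dd e a = 0 := by
      have := hx
      simpa [Polynomial.IsRoot, Polynomial.eval_map] using this
    have h4 : x ^ 2 - algebraMap ℚ K (cst e a) ^ 2 = 0 := by
      by_contra hc
      exact pow_ne_zero _ hc hx'
    have h5 : (x - algebraMap ℚ K (cst e a)) * (x + algebraMap ℚ K (cst e a)) = 0 := by
      rw [← h4]; ring
    rcases mul_eq_zero.mp h5 with h | h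
    · exact Or.inl (sub_eq_zero.mp h)
    · exact Or.inr (eq_neg_of_add_eq_zero_left h)
  · intro x hx
    exact roots_W K (Wmat e a) (cst e a) (Wmat_sq e a) x hx

end Pool.Agent.GV
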