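import Pool.Agent.GV.ALG.Defs

/-!
# GV-ALG-Wlin: the Atkin-Lehner involution on polynomials

Plan.  `Wlin_X_pow` by unfolding.  `Wlin_G`: `W_{a+b}(p q) = W_a(p) W_b(q)` up to the sign: e.g.
`Wlin false (a+b) (p * q) = Wlin false a p * Wlin false b q` for `natDegree p ≤ a`,
`natDegree q ≤ b` (bilinear: check on monomials `X^i`, `X^j`), and
`Wlin true a p = - Wlin false a p`.
Then `Wlin false 1 (1 + 256 X) = 4 (1 + 16 X)`, `Wlin false 3 X = 64 X^2` (`Δ = φ² ψ`),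
`Wlin false 1 (1 - 512 X) = -8 (1 - 8 X)`, so
`Wlin false a (G false a z) = 4^(a-3z) (1+16X)^(a-3z) 64^z X^(2z) = 4^a (1+16X)^(a-3z) X^(2z)`,
`Wlin true a (G true a z) = 8 (1 - 8X) 4^(a-1) (1+16X)^(a-1-3z) X^(2z)`.
`Wmat_sq`: entry `(i, k)` of the square: the only `j` with `i + j + 2 = a` is `a - 2 - i`, and then
`j + k + 2 = a` iff `k = i`; the value is `sgn² 64^a/4096^(j+1) * 64^a/4096^(i+1) = 1` since
`64^(2a) = 4096^a` and `(i+1) + (j+1) = a`.
-/

namespace Pool.Agent.GV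

open Polynomial

theorem Wlin_add (e : Bool) (a : ℕ) (p q : ℚ[X]) :
    Wlin e a (p + q) = Wlin e a p + Wlin e a q := by
  unfold Wlin
  rw [← Finset.sum_add_distrib]
  refine Finset.sum_congr rfl fun j _ => ?_
  rw [coeff_add, mul_add, add_mul, C_add, add_mul]

theorem Wlin_C_mul (e : Bool) (a : ℕ) (x : ℚ) (p : ℚ[X]) :
    Wlin e a (C x * p) = C x * Wlin e a p := by
  unfold Wlin
  rw [Finset.mul_sum]
  refine Finset.sum_congr rfl fun j _ => ?_
  rw [coeff_C_mul, ← mul_assoc (C x), ← C_mul]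
  congr 2
  ring

theorem Wlin_X_pow (e : Bool) (a j : ℕ) (hj : j ≤ a) :
    Wlin e a (X ^ j) = C (sgn e * (64 ^ a / 4096 ^ j)) * X ^ (a - j) := by
  unfold Wlin
  rw [Finset.sum_eq_single j]
  · rw [coeff_X_pow, if_pos rfl, mul_one]
  · intro k _ hk
    rw [coeff_X_pow, if_neg hk, mul_zero, zero_mul, C_0, zero_mul]
  · intro h
    exact absurd (Finset.mem_range.2 (Nat.lt_succ_of_le hj)) h

private theorem eval_Wlin (e : Bool) (a : ℕ) (p : ℚ[X]) (hp : p.natDegree ≤ a) {x : ℚ}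
    (hx : x ≠ 0) :
    (Wlin e a p).eval x = sgn e * (64 ^ a * x ^ a * p.eval (1 / (4096 * x))) := by
  unfold Wlin
  rw [eval_finset_sum, eval_eq_sum_range' (Nat.lt_succ_of_le hp), Finset.mul_sum, Finset.mul_sum]
  refine Finset.sum_congr rfl fun j hj => ?_
  have hj' : j ≤ a := Nat.lt_succ_iff.1 (Finset.mem_range.1 hj)
  obtain ⟨b, rfl⟩ := Nat.exists_eq_add_of_le hj'
  rw [eval_mul, eval_C, eval_pow, eval_X, Nat.add_sub_cancel_left, one_div, inv_pow, mul_pow,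
    pow_add x]
  have h1 : x ^ j ≠ 0 := pow_ne_zero _ hx
  field_simp

private theorem eq_of_eval {p q : ℚ[X]} (h : ∀ x : ℚ, x ≠ 0 → p.eval x = q.eval x) : p = q := by
  refine eq_of_infinite_eval_eq p q ?_
  refine Set.Infinite.mono (s := {0}ᶜ) (fun x hx => h x hx) ?_
  exact (Set.finite_singleton (0 : ℚ)).infinite_compl

private theorem deg_CX (x : ℚ) : (C x * X : ℚ[X]).natDegree ≤ 1 := by
  refine (natDegree_C_mul_le x X).trans ?_
  rw [natDegree_X]

private theorem deg_lin (x : ℚ) : (1 + C x * X : ℚ[X]).natDegree ≤ 1 := by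
  refine natDegree_add_le_of_degree_le ?_ (deg_CX x)
  rw [natDegree_one]
  exact zero_le_one

private theorem deg_lin' (x : ℚ) : (1 - C x * X : ℚ[X]).natDegree ≤ 1 := by
  refine (natDegree_sub_le _ _).trans (max_le ?_ (deg_CX x))
  rw [natDegree_one]
  exact zero_le_one

private theorem deg_G (m z : ℕ) (x : ℚ) :
    ((1 + C x * X : ℚ[X]) ^ m * X ^ z).natDegree ≤ m + z := by
  refine natDegree_mul_le.trans (add_le_add ?_ (natDegree_X_pow_le z))
  refine natDegree_pow_le.trans ?_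
  calc m * (1 + C x * X : ℚ[X]).natDegree ≤ m * 1 := Nat.mul_le_mul_left m (deg_lin x)
    _ = m := mul_one m

private theorem key (m z : ℕ) {x : ℚ} (hx : x ≠ 0) :
    64 ^ (m + 3 * z) * x ^ (m + 3 * z) * ((1 + 256 * (1 / (4096 * x))) ^ m *
      (1 / (4096 * x)) ^ z) = 4 ^ (m + 3 * z) * ((1 + 16 * x) ^ m * x ^ (2 * z)) := by
  have h1 : 1 + 256 * (1 / (4096 * x)) = (1 + 16 * x) / (16 * x) := by
    field_simp
    ring
  have h2 : (64 : ℚ) ^ (m + 3 * z) = 4 ^ (m + 3 * z) * (16 ^ m * 4096 ^ z) := by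
    have e1 : (64 : ℚ) = 4 * 16 := by norm_num
    have e2 : (4096 : ℚ) = 16 ^ 3 := by norm_num
    rw [e1, e2, mul_pow, pow_add 16, pow_mul]
  have h3 : x ^ (m + 3 * z) = x ^ m * (x ^ z * x ^ (2 * z)) := by
    rw [← pow_add, ← pow_add]
    congr 1
    ring
  rw [h1, h2, h3, div_pow, div_pow, mul_pow 16 x, mul_pow 4096 x, one_pow]
  have h4 : x ^ m ≠ 0 := pow_ne_zero _ hx
  have h5 : x ^ z ≠ 0 := pow_ne_zero _ hx
  field_simp

theorem Wlin_G_false (a z : ℕ) (hz : 3 * z ≤ a) :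
    Wlin false a (G false a z) =
      C (4 ^ a) * ((1 + C 16 * X) ^ (a - 3 * z) * X ^ (2 * z)) := by
  obtain ⟨m, rfl⟩ : ∃ m, a = m + 3 * z := ⟨a - 3 * z, by omega⟩
  have hG : G false (m + 3 * z) z = (1 + C 256 * X) ^ m * X ^ z := by
    unfold G
    rw [cond_false, Nat.add_sub_cancel]
  rw [hG, Nat.add_sub_cancel]
  refine eq_of_eval fun x hx => ?_
  rw [eval_Wlin false _ _ ((deg_G m z 256).trans (by omega)) hx]
  simp only [sgn, cond_false, one_mul, eval_mul, eval_pow, eval_add, eval_one, eval_C, eval_X]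
  exact key m z hx

theorem Wlin_G_true (a z : ℕ) (hz : 3 * z + 1 ≤ a) :
    Wlin true a (G true a z) =
      C (8 * 4 ^ (a - 1)) * ((1 - C 8 * X) * (1 + C 16 * X) ^ (a - 1 - 3 * z) * X ^ (2 * z)) := by
  obtain ⟨m, rfl⟩ : ∃ m, a = m + 3 * z + 1 := ⟨a - 1 - 3 * z, by omega⟩
  have h0 : m + 3 * z + 1 - 1 - 3 * z = m := by omega
  have h1 : m + 3 * z + 1 - 1 = m + 3 * z := by omega
  have hG : G true (m + 3 * z + 1) z = (1 - C 512 * X) * ((1 + C 256 * X) ^ m * X ^ z) := by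
    unfold G
    rw [cond_true, h0, mul_assoc]
  rw [hG, h0, h1]
  refine eq_of_eval fun x hx => ?_
  have hdeg : ((1 - C 512 * X : ℚ[X]) * ((1 + C 256 * X) ^ m * X ^ z)).natDegree ≤
      m + 3 * z + 1 := by
    refine natDegree_mul_le.trans ?_
    have k1 := deg_lin' 512
    have k2 := deg_G m z 256
    omega
  rw [eval_Wlin true _ _ hdeg hx]
  simp only [sgn, cond_true, eval_mul, eval_pow, eval_add, eval_sub, eval_one, eval_C, eval_X]
  have k := key m z hx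
  have h2 : (1 - 512 * (1 / (4096 * x))) * (64 * x) = -(8 * (1 - 8 * x)) := by
    field_simp
    ring
  rw [pow_succ, pow_succ]
  calc -1 * (64 ^ (m + 3 * z) * 64 * (x ^ (m + 3 * z) * x) *
        ((1 - 512 * (1 / (4096 * x))) * ((1 + 256 * (1 / (4096 * x))) ^ m *
          (1 / (4096 * x)) ^ z)))
      = -1 * ((1 - 512 * (1 / (4096 * x))) * (64 * x)) *
          (64 ^ (m + 3 * z) * x ^ (m + 3 * z) * ((1 + 256 * (1 / (4096 * x))) ^ m *
            (1 / (4096 * x)) ^ z)) := by ring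
    _ = 8 * 4 ^ (m + 3 * z) * ((1 - 8 * x) * (1 + 16 * x) ^ m * x ^ (2 * z)) := by
        rw [k, h2]
        ring

theorem Wmat_sq (e : Bool) (a : ℕ) : Wmat e a * Wmat e a = 1 := by
  have hs : sgn e * sgn e = 1 := by cases e <;> simp [sgn]
  ext i k
  rw [Matrix.mul_apply, Matrix.one_apply]
  have hi := i.2
  have hk := k.2
  obtain ⟨j0, hj0⟩ : ∃ j0 : Fin (a - 1), (i : ℕ) + j0 + 2 = a :=
    ⟨⟨a - 2 - i, by omega⟩, by simp only; omega⟩
  rw [Finset.sum_eq_single j0]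
  · unfold Wmat
    rw [Matrix.of_apply, Matrix.of_apply, if_pos hj0]
    by_cases h : i = k
    · rw [if_pos h, ← h, if_pos (by omega)]
      have h1 : (64 : ℚ) ^ a * 64 ^ a = 4096 ^ ((j0 : ℕ) + 1) * 4096 ^ ((i : ℕ) + 1) := by
        rw [← mul_pow, ← pow_add]
        have e1 : (64 : ℚ) * 64 = 4096 := by norm_num
        rw [e1]
        congr 1
        omega
      have h2 : (4096 : ℚ) ^ ((j0 : ℕ) + 1) ≠ 0 := by positivity
      have h3 : (4096 : ℚ) ^ ((i : ℕ) + 1) ≠ 0 := by positivity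
      have h4 : sgn e * (64 ^ a / 4096 ^ ((j0 : ℕ) + 1)) * (sgn e * (64 ^ a / 4096 ^ ((i : ℕ) + 1)))
          = (sgn e * sgn e) * ((64 ^ a * 64 ^ a) /
            (4096 ^ ((j0 : ℕ) + 1) * 4096 ^ ((i : ℕ) + 1))) := by
        field_simp
      rw [h4, hs, h1, div_self (mul_ne_zero h2 h3), one_mul]
    · rw [if_neg h, if_neg, mul_zero]
      intro h5
      exact h (Fin.ext (by omega))
  · intro j _ hj
    unfold Wmat
    rw [Matrix.of_apply, if_neg, zero_mul]
    intro h5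
    exact hj (Fin.ext (by omega))
  · intro h
    exact absurd (Finset.mem_univ _) h

end Pool.Agent.GV
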