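import Pool.Agent.GV.ALG.Ucol
import Pool.Agent.GV.ALG.Wlin

/-!
# GV-ALG-Lev: `U + 2^(k/2-1) W` maps into the forms of level one

`R_{a,j} = ucol e a j + cst e a * Wlin e a (X^j)` is a combination of the `G e a z`, `j ≤ a`.

Plan.  Let `InG e a p` be the statement `∃ x : ℕ → ℚ, p = ∑ z ∈ range (m+1), C (x z) * G e a z`
where `m = dd e a`, but for `(e, a) = (true, 0)` let it be `p = 0`.
(1) `InG e a p → InG e (a+1) ((1 + 256 X) p)`, `InG e a p → InG e (a+3) (X p)`, sums, multiples.
(2) `R_{a+1,j} + 16 R_{a+1,j+1} = (1 + 256 X) R_{a,j}` for `j ≤ a`: `ucol_rule1` and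
`cst e (a+1) (W_{a+1}(X^j) + 16 W_{a+1}(X^(j+1))) = (1 + 256 X) cst e a W_a(X^j)` (`Wlin_X_pow`,
`cst e (a+1) = 4 cst e a`: `4 * 64^(a+1)/4096^j X^(a+1-j) = 256 * 64^a/4096^j X^(a-j+1)` and
`4 * 16 * 64^(a+1)/4096^(j+1) X^(a-j) = 64^a/4096^j X^(a-j)`).
(3) `16 R_{a+3,a+3} = (1+256X) R_{a+2,a+2} - X R_{a,a}`: the diagonal columns
`u_a = ucol e a a` satisfy `u_{a+2} = 16 X u_{a+1} + X u_a` (`ucol_rule2`), and the `W` part is
`w_a = s * cst e a * 64^a/4096^a = s * cst e 0 * 16^(-a)`, `w_{a+1} = w_a/16`.  Then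
`16 u_{a+3} = 256 X u_{a+2} + 16 X u_{a+1} = (1 + 256 X) u_{a+2} - X u_a` and
`16 w_{a+3} = w_{a+2}`, `256 X w_{a+2} - X w_a = 0`.
(4) start: `e = 0`: `R_00 = 3/2`, `R_11 = (1+256X)/32`, `R_22 = (1+256X)^2/512`;
`e = 1`: `R_00 = 0`, `R_11 = -(1-512X)/16`, `R_22 = -(1-512X)(1+256X)/256`.
(5) induction on `a`: first the diagonal (3), then `R_{a+1,j} = (1+256X) R_{a,j} - 16 R_{a+1,j+1}`
by downward induction on `j`.
-/

namespace Pool.Agent.GV

open Polynomial

/-- the forms of level one -/
private noncomputable def Lev_T (e : Bool) (a : ℕ) : Submodule ℚ ℚ[X] :=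
  Submodule.span ℚ (G e a '' {z | 3 * z + (bif e then 1 else 0) ≤ a})

private theorem Lev_gen {e : Bool} {a z : ℕ} (h : 3 * z + (bif e then 1 else 0) ≤ a) :
    G e a z ∈ Lev_T e a :=
  Submodule.subset_span (Set.mem_image_of_mem _ h)

private theorem Lev_one {e : Bool} {a : ℕ} {p : ℚ[X]} (h : p ∈ Lev_T e a) :
    (1 + C 256 * X) * p ∈ Lev_T e (a + 1) := by
  unfold Lev_T at h
  induction h using Submodule.span_induction with
  | mem x hx =>
    obtain ⟨z, hz, rfl⟩ := hx
    have hz' : 3 * z + (bif e then 1 else 0) ≤ a := hz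
    have h1 : (1 + C 256 * X) * G e a z = G e (a + 1) z := by
      cases e with
      | false =>
        simp only [cond_false, add_zero] at hz'
        have : a + 1 - 3 * z = (a - 3 * z) + 1 := by omega
        simp only [G, cond_false]
        rw [this, pow_succ]
        ring
      | true =>
        simp only [cond_true] at hz'
        have : a + 1 - 1 - 3 * z = (a - 1 - 3 * z) + 1 := by omega
        simp only [G, cond_true]
        rw [this, pow_succ]
        ring
    rw [h1]
    exact Lev_gen (by omega)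
  | zero => rw [mul_zero]; exact Submodule.zero_mem _
  | add x y _ _ hx hy => rw [mul_add]; exact Submodule.add_mem _ hx hy
  | smul c x _ hx => rw [mul_smul_comm]; exact Submodule.smul_mem _ _ hx

private theorem Lev_three {e : Bool} {a : ℕ} {p : ℚ[X]} (h : p ∈ Lev_T e a) :
    X * p ∈ Lev_T e (a + 3) := by
  unfold Lev_T at h
  induction h using Submodule.span_induction with
  | mem x hx =>
    obtain ⟨z, hz, rfl⟩ := hx
    have hz' : 3 * z + (bif e then 1 else 0) ≤ a := hz
    have h1 : X * G e a z = G e (a + 3) (z + 1) := by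
      cases e with
      | false =>
        simp only [cond_false, add_zero] at hz'
        have : a + 3 - 3 * (z + 1) = a - 3 * z := by omega
        simp only [G, cond_false]
        rw [this, pow_succ]
        ring
      | true =>
        simp only [cond_true] at hz'
        have : a + 3 - 1 - 3 * (z + 1) = a - 1 - 3 * z := by omega
        simp only [G, cond_true]
        rw [this, pow_succ]
        ring
    rw [h1]
    exact Lev_gen (by omega)
  | zero => rw [mul_zero]; exact Submodule.zero_mem _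
  | add x y _ _ hx hy => rw [mul_add]; exact Submodule.add_mem _ hx hy
  | smul c x _ hx => rw [mul_smul_comm]; exact Submodule.smul_mem _ _ hx

private theorem Lev_C {e : Bool} {a : ℕ} {p : ℚ[X]} (c : ℚ) (h : p ∈ Lev_T e a) :
    C c * p ∈ Lev_T e a := by
  rw [← Polynomial.smul_eq_C_mul]
  exact Submodule.smul_mem _ _ h

/-- the columns -/
private noncomputable def Lev_R (e : Bool) (a j : ℕ) : ℚ[X] :=
  ucol e a j + C (cst e a) * Wlin e a (X ^ j)

private theorem Lev_cst (e : Bool) (a : ℕ) : cst e (a + 1) = 4 * cst e a := by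
  unfold cst
  rw [mul_add, pow_add]
  ring

private theorem Lev_step (e : Bool) (a j : ℕ) (hj : j ≤ a) :
    Lev_R e (a + 1) j + C 16 * Lev_R e (a + 1) (j + 1) = (1 + C 256 * X) * Lev_R e a j := by
  unfold Lev_R
  have h1 := ucol_rule1 e a j hj
  have e1 : a + 1 - j = (a - j) + 1 := by omega
  have e2 : a + 1 - (j + 1) = a - j := by omega
  have h2 : C (cst e (a + 1)) * Wlin e (a + 1) (X ^ j) + C 16 * (C (cst e (a + 1)) *
      Wlin e (a + 1) (X ^ (j + 1))) = (1 + C 256 * X) * (C (cst e a) * Wlin e a (X ^ j)) := by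
    rw [Wlin_X_pow e (a + 1) j (by omega), Wlin_X_pow e (a + 1) (j + 1) (by omega),
      Wlin_X_pow e a j hj, Lev_cst, e1, e2]
    set q : ℚ := cst e a * (sgn e * (64 ^ a / 4096 ^ j)) with hq
    have a1 : C (4 * cst e a) * (C (sgn e * (64 ^ (a + 1) / 4096 ^ j)) * X ^ (a - j + 1))
        = C (256 * q) * X ^ (a - j + 1) := by
      rw [← mul_assoc, ← C_mul]
      congr 2
      rw [hq, pow_succ]
      ring
    have a2 : C 16 * (C (4 * cst e a) * (C (sgn e * (64 ^ (a + 1) / 4096 ^ (j + 1))) * X ^ (a - j)))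
        = C q * X ^ (a - j) := by
      rw [← mul_assoc, ← mul_assoc, ← C_mul, ← C_mul]
      congr 2
      rw [hq, pow_succ, pow_succ]
      ring
    have a3 : C (cst e a) * (C (sgn e * (64 ^ a / 4096 ^ j)) * X ^ (a - j)) = C q * X ^ (a - j) := by
      rw [← mul_assoc, ← C_mul]
    rw [a1, a2, a3, C_mul, pow_succ]
    ring
  calc _ = (ucol e (a + 1) j + C 16 * ucol e (a + 1) (j + 1)) +
      (C (cst e (a + 1)) * Wlin e (a + 1) (X ^ j) + C 16 * (C (cst e (a + 1)) *
      Wlin e (a + 1) (X ^ (j + 1)))) := by ring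
    _ = _ := by rw [h1, h2]; ring

private def Lev_w (e : Bool) (a : ℕ) : ℚ := cst e 0 * sgn e / 16 ^ a

private theorem Lev_diag (e : Bool) (a : ℕ) : Lev_R e a a = ucol e a a + C (Lev_w e a) := by
  unfold Lev_R
  rw [Wlin_X_pow e a a le_rfl, Nat.sub_self, pow_zero, mul_one, ← C_mul]
  congr 2
  unfold Lev_w cst
  have h1 : (4096 : ℚ) ^ a = 64 ^ a * 64 ^ a := by rw [← mul_pow]; norm_num
  have h2 : (64 : ℚ) ^ a = 4 ^ a * 16 ^ a := by rw [← mul_pow]; norm_num
  have h3 : (2 : ℚ) ^ (2 * a) = 4 ^ a := by rw [pow_mul]; norm_num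
  rw [h1, h2, h3]
  have h4 : (4 : ℚ) ^ a ≠ 0 := by positivity
  have h5 : (16 : ℚ) ^ a ≠ 0 := by positivity
  field_simp
  norm_num

private theorem Lev_rec (e : Bool) (a : ℕ) :
    C 16 * Lev_R e (a + 3) (a + 3) =
      (1 + C 256 * X) * Lev_R e (a + 2) (a + 2) - X * Lev_R e a a := by
  rw [Lev_diag, Lev_diag, Lev_diag]
  have h1 := ucol_rule2 e (a + 1) (a + 1) le_rfl
  have h2 := ucol_rule2 e a a le_rfl
  have e1 : a + 1 + 2 = a + 3 := rfl
  have e2 : a + 1 + 1 = a + 2 := rfl
  rw [e1, e2] at h1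
  have w1 : (16 : ℚ) * Lev_w e (a + 3) = Lev_w e (a + 2) := by
    unfold Lev_w
    rw [show a + 3 = (a + 2) + 1 from rfl, pow_succ]
    field_simp
  have w2 : (256 : ℚ) * Lev_w e (a + 2) = Lev_w e a := by
    unfold Lev_w
    rw [pow_add]
    field_simp
    ring
  have w1' : (C 16 : ℚ[X]) * C (Lev_w e (a + 3)) = C (Lev_w e (a + 2)) := by rw [← C_mul, w1]
  have w2' : (C 256 : ℚ[X]) * C (Lev_w e (a + 2)) = C (Lev_w e a) := by rw [← C_mul, w2]
  have h3 : (C 16 : ℚ[X]) * C 16 = C 256 := by rw [← C_mul]; norm_num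
  rw [h1]
  linear_combination w1' - X * w2' - h2 + (X * ucol e (a + 2) (a + 2)) * h3

private theorem Lev_diag_mem (e : Bool) : ∀ a, Lev_R e a a ∈ Lev_T e a := by
  have d0 : Lev_R e 0 0 ∈ Lev_T e 0 := by
    rw [Lev_diag, ucol_zero_zero]
    cases e with
    | false =>
      have h1 : (1 : ℚ[X]) + C (Lev_w false 0) = C (3 / 2) * G false 0 0 := by
        simp only [G, Lev_w, cst, sgn, cond_false]
        rw [← C_1, ← C_add]
        norm_num
      rw [h1]
      exact Lev_C _ (Lev_gen (by simp))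
    | true =>
      have h1 : (1 : ℚ[X]) + C (Lev_w true 0) = 0 := by
        simp only [Lev_w, cst, sgn, cond_true]
        rw [← C_1, ← C_add]
        norm_num
      rw [h1]
      exact Submodule.zero_mem _
  have d1 : Lev_R e 1 1 ∈ Lev_T e 1 := by
    rw [Lev_diag, ucol_one_one]
    cases e with
    | false =>
      have h1 : (C (bif false then 32 else 8) * X : ℚ[X]) + C (Lev_w false 1) =
          C (1 / 32) * G false 1 0 := by
        simp only [G, Lev_w, cst, sgn, cond_false]
        have : (C (1 / 32) : ℚ[X]) * C 256 = C 8 := by rw [← C_mul]; norm_num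
        have h2 : (2 ^ (2 * 0) * (1 / 2) * 1 / 16 ^ 1 : ℚ) = 1 / 32 := by norm_num
        rw [h2]
        simp only [mul_zero, Nat.sub_zero, pow_one, pow_zero, mul_one]
        linear_combination -X * this
      rw [h1]
      exact Lev_C _ (Lev_gen (by simp))
    | true =>
      have h1 : (C (bif true then 32 else 8) * X : ℚ[X]) + C (Lev_w true 1) =
          C (-1 / 16) * G true 1 0 := by
        simp only [G, Lev_w, cst, sgn, cond_true]
        have : (C (-1 / 16) : ℚ[X]) * C 512 = -C 32 := by rw [← C_mul, ← C_neg]; norm_num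
        have h2 : (2 ^ (2 * 0) * 1 * -1 / 16 ^ 1 : ℚ) = -1 / 16 := by norm_num
        rw [h2]
        simp only [mul_zero, Nat.sub_self, pow_zero, mul_one]
        linear_combination X * this
      rw [h1]
      exact Lev_C _ (Lev_gen (by simp))
  have d2 : Lev_R e 2 2 ∈ Lev_T e 2 := by
    have hr := ucol_rule2 e 0 0 le_rfl
    simp only [zero_add] at hr
    rw [Lev_diag, hr, ucol_one_one, ucol_zero_zero]
    cases e with
    | false =>
      have h1 : (C 16 * X * (C (bif false then 32 else 8) * X) + X * 1 : ℚ[X]) + C (Lev_w false 2) =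
          C (1 / 512) * G false 2 0 := by
        simp only [G, Lev_w, cst, sgn, cond_false]
        have k1 : (C (1 / 512) : ℚ[X]) * C 256 * C 256 = C 16 * C 8 := by
          rw [← C_mul, ← C_mul, ← C_mul]; norm_num
        have k2 : (C (1 / 512) : ℚ[X]) * C 256 * 2 = 1 := by
          rw [← C_mul, show (2 : ℚ[X]) = C 2 from rfl, ← C_mul, ← C_1]; norm_num
        have h2 : (2 ^ (2 * 0) * (1 / 2) * 1 / 16 ^ 2 : ℚ) = 1 / 512 := by norm_num
        rw [h2]
        simp only [mul_zero, Nat.sub_zero, pow_zero, mul_one]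
        linear_combination -X ^ 2 * k1 - X * k2
      rw [h1]
      exact Lev_C _ (Lev_gen (by simp))
    | true =>
      have h1 : (C 16 * X * (C (bif true then 32 else 8) * X) + X * 1 : ℚ[X]) + C (Lev_w true 2) =
          C (-1 / 256) * G true 2 0 := by
        simp only [G, Lev_w, cst, sgn, cond_true]
        have k1 : (C (-1 / 256) : ℚ[X]) * C 512 * C 256 = - (C 16 * C 32) := by
          rw [← C_mul, ← C_mul, ← C_mul, ← C_neg]; norm_num
        have k2 : (C (-1 / 256) : ℚ[X]) * (C 256 - C 512) = 1 := by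
          rw [← C_sub, ← C_mul, ← C_1]; norm_num
        have h2 : (2 ^ (2 * 0) * 1 * -1 / 16 ^ 2 : ℚ) = -1 / 256 := by norm_num
        rw [h2]
        simp only [mul_zero, Nat.sub_zero, pow_zero, mul_one, Nat.reduceSub, pow_one]
        linear_combination X ^ 2 * k1 - X * k2
      rw [h1]
      exact Lev_C _ (Lev_gen (by simp))
  intro a
  induction a using Nat.strong_induction_on with
  | _ a ih =>
    rcases a with _ | _ | _ | a
    · exact d0
    · exact d1
    · exact d2
    · have h1 : (1 + C 256 * X) * Lev_R e (a + 2) (a + 2) ∈ Lev_T e (a + 3) :=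
        Lev_one (ih (a + 2) (by omega))
      have h2 : X * Lev_R e a a ∈ Lev_T e (a + 3) := Lev_three (ih a (by omega))
      have h3 : Lev_R e (a + 3) (a + 3) = C (1 / 16) * (C 16 * Lev_R e (a + 3) (a + 3)) := by
        rw [← mul_assoc, ← C_mul]
        norm_num
      show Lev_R e (a + 3) (a + 3) ∈ Lev_T e (a + 3)
      rw [h3, Lev_rec]
      exact Lev_C _ (Submodule.sub_mem _ h1 h2)

private theorem Lev_mem (e : Bool) : ∀ a i, i ≤ a → Lev_R e a (a - i) ∈ Lev_T e a := by
  intro a
  induction a with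
  | zero =>
    intro i hi
    rw [Nat.zero_sub]
    exact Lev_diag_mem e 0
  | succ a iha =>
    intro i
    induction i with
    | zero =>
      intro _
      exact Lev_diag_mem e (a + 1)
    | succ i ihi =>
      intro hi
      have h1 := ihi (by omega)
      have e1 : a + 1 - (i + 1) = a - i := by omega
      have e2 : a + 1 - i = (a - i) + 1 := by omega
      rw [e1]
      rw [e2] at h1
      have h2 := Lev_step e a (a - i) (by omega)
      have h3 : Lev_R e (a + 1) (a - i) = (1 + C 256 * X) * Lev_R e a (a - i) -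
          C 16 * Lev_R e (a + 1) ((a - i) + 1) := by
        rw [← h2]
        ring
      rw [h3]
      exact Submodule.sub_mem _ (Lev_one (iha i (by omega))) (Lev_C _ h1)

theorem lev (e : Bool) (a j : ℕ) (hj : j ≤ a) (ha : 1 ≤ a) :
    ∃ x : ℕ → ℚ, ucol e a j + C (cst e a) * Wlin e a (X ^ j) =
      ∑ z ∈ Finset.range (dd e a + 1), C (x z) * G e a z := by
  have h1 := Lev_mem e a (a - j) (by omega)
  rw [show a - (a - j) = j by omega] at h1
  have h2 : {z | 3 * z + (bif e then 1 else 0) ≤ a} = ((Finset.range (dd e a + 1) : Finset ℕ) : Set ℕ) := by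
    ext z
    simp only [Set.mem_ofPred_eq, Finset.coe_range, Set.mem_Iio]
    cases e with
    | false =>
      simp only [dd, cond_false]
      omega
    | true =>
      simp only [dd, cond_true]
      omega
  unfold Lev_T at h1
  rw [h2, Submodule.mem_span_image_finset_iff_exists_fun'] at h1
  obtain ⟨c, hc⟩ := h1
  refine ⟨c, ?_⟩
  have h3 : ucol e a j + C (cst e a) * Wlin e a (X ^ j) = Lev_R e a j := rfl
  rw [h3, ← hc]
  exact Finset.sum_congr rfl fun z _ => Polynomial.smul_eq_C_mul _

end Pool.Agent.GV
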