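import Pool.Agent.GV.ALG.Ucol
import Pool.Agent.GV.ALG.Wlin

/-!
# GV-ALG-UW: `U W f = 2^(k/2) f` for `f` of level one

Plan.  `e = 0`: by `Wlin_G_false` and `Ulin_C_mul` it is `4^a * Ulin (( 1+16X)^(a-3z) X^(2z))`;
induction: `Ulin false (m + 3 z) ((1+16X)^m X^(2z)) = (1+256X)^m X^z` from `Ulin_rule1`,
`Ulin_rule3`, start `Ulin false 0 1 = 1` (`ucol_zero_zero`).  `2 cst false a = 4^a`.
`e = 1`: `Ulin true (m + 1 + 3 z) ((1-8X) (1+16X)^m X^(2z)) = (1-512X)(1+256X)^m X^z`, start
`Ulin true 1 (1 - 8X) = ucol true 1 0 - 8 ucol true 1 1 = (1 - 256 X) - 256 X` where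
`ucol true 1 0 = (1+256X) - 16 ucol true 1 1` (`ucol_rule1` with `a = j = 0`,
`ucol_one_one`).  `2 cst true a = 8 * 4^(a-1)` (`a ≥ 1`).
-/

namespace Pool.Agent.GV

open Polynomial

private lemma uw_deg1 : (1 + C 16 * X : ℚ[X]).natDegree ≤ 1 := by
  refine (natDegree_add_le _ _).trans (max_le ?_ ?_)
  · rw [natDegree_one]
    norm_num
  · exact (natDegree_C_mul_le _ _).trans natDegree_X_le

private lemma uw_degm (q : ℚ[X]) (d m : ℕ) (hq : q.natDegree ≤ d) :
    (q * (1 + C 16 * X) ^ m).natDegree ≤ d + m := by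
  refine natDegree_mul_le.trans (add_le_add hq ?_)
  refine natDegree_pow_le.trans ?_
  calc m * (1 + C 16 * X : ℚ[X]).natDegree ≤ m * 1 := Nat.mul_le_mul_left _ uw_deg1
    _ = m := mul_one m

private lemma uw_m (e : Bool) (q Q : ℚ[X]) (d : ℕ) (hq : q.natDegree ≤ d) (hQ : Ulin e d q = Q)
    (m : ℕ) : Ulin e (d + m) (q * (1 + C 16 * X) ^ m) = Q * (1 + C 256 * X) ^ m := by
  induction m with
  | zero => rw [pow_zero, pow_zero, mul_one, mul_one, add_zero, hQ]
  | succ m ih =>
    rw [← add_assoc, pow_succ, ← mul_assoc, Ulin_rule1 e (d + m) _ (uw_degm q d m hq), ih, pow_succ]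
    ring

private lemma uw_z (e : Bool) (q Q : ℚ[X]) (d : ℕ) (hq : q.natDegree ≤ d) (hQ : Ulin e d q = Q)
    (m z : ℕ) : Ulin e (d + m + 3 * z) (q * (1 + C 16 * X) ^ m * X ^ (2 * z)) =
      Q * (1 + C 256 * X) ^ m * X ^ z := by
  induction z with
  | zero =>
    rw [mul_zero, mul_zero, pow_zero, mul_one, add_zero, mul_one, uw_m e q Q d hq hQ]
  | succ z ih =>
    have h1 : d + m + 3 * (z + 1) = d + m + 3 * z + 3 := by ring
    have h2 : q * (1 + C 16 * X) ^ m * X ^ (2 * (z + 1)) =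
        (q * (1 + C 16 * X) ^ m * X ^ (2 * z)) * X ^ 2 := by ring
    have h3 : (q * (1 + C 16 * X) ^ m * X ^ (2 * z)).natDegree ≤ d + m + 3 * z := by
      refine natDegree_mul_le.trans ?_
      have h4 := uw_degm q d m hq
      have h5 := natDegree_X_pow_le (R := ℚ) (2 * z)
      omega
    rw [h1, h2, Ulin_rule3 e _ _ h3, ih]
    ring

theorem UW_G (e : Bool) (a z : ℕ) (hz : 3 * z + (bif e then 1 else 0) ≤ a) :
    Ulin e a (Wlin e a (G e a z)) = C (2 * cst e a) * G e a z := by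
  cases e with
  | false =>
    simp only [cond_false, add_zero] at hz
    have h0 : Ulin false 0 1 = 1 := by
      have h1 := Ulin_X_pow false 0 0 le_rfl
      rw [pow_zero] at h1
      rw [h1, ucol_zero_zero]
    have h2 := uw_z false 1 1 0 (by rw [natDegree_one]) h0 (a - 3 * z) z
    rw [zero_add, Nat.sub_add_cancel hz, one_mul, one_mul] at h2
    rw [Wlin_G_false a z hz, Ulin_C_mul, h2]
    have h3 : (2 * cst false a : ℚ) = 4 ^ a := by
      unfold cst
      rw [pow_mul]
      simp only [cond_false]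
      norm_num
      ring
    rw [h3]
    rfl
  | true =>
    simp only [cond_true] at hz
    have h11 := ucol_one_one true
    have h10 := ucol_rule1 true 0 0 le_rfl
    rw [ucol_zero_zero, mul_one] at h10
    simp only [cond_true, zero_add] at h11 h10
    rw [h11] at h10
    have h0 : Ulin true 1 (1 - C 8 * X) = 1 - C 512 * X := by
      have e1 : (1 - C 8 * X : ℚ[X]) = X ^ 0 + C (-8) * X ^ 1 := by
        rw [pow_zero, pow_one, C_neg]
        ring
      rw [e1, Ulin_add, Ulin_C_mul, Ulin_X_pow true 1 0 (by norm_num),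
        Ulin_X_pow true 1 1 le_rfl, h11]
      have e2 : ucol true 1 0 = 1 + C 256 * X - C 16 * (C 32 * X) := by
        rw [← h10]
        ring
      rw [e2]
      have c1 : (C 512 : ℚ[X]) = 512 := map_ofNat C 512
      have c2 : (C 256 : ℚ[X]) = 256 := map_ofNat C 256
      have c3 : (C 16 : ℚ[X]) = 16 := map_ofNat C 16
      have c4 : (C 32 : ℚ[X]) = 32 := map_ofNat C 32
      have c5 : (C (-8) : ℚ[X]) = -8 := by
        rw [C_neg]
        exact congrArg Neg.neg (map_ofNat C 8)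
      rw [c1, c2, c3, c4, c5]
      ring
    have hd : (1 - C 8 * X : ℚ[X]).natDegree ≤ 1 := by
      refine (natDegree_sub_le _ _).trans (max_le ?_ ?_)
      · rw [natDegree_one]
        norm_num
      · exact (natDegree_C_mul_le _ _).trans natDegree_X_le
    have h2 := uw_z true (1 - C 8 * X) (1 - C 512 * X) 1 hd h0 (a - 1 - 3 * z) z
    have h4 : 1 + (a - 1 - 3 * z) + 3 * z = a := by omega
    rw [h4] at h2
    rw [Wlin_G_true a z hz, Ulin_C_mul, h2]
    have h3 : (2 * cst true a : ℚ) = 8 * 4 ^ (a - 1) := by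
      unfold cst
      obtain ⟨b, rfl⟩ : ∃ b, a = b + 1 := ⟨a - 1, by omega⟩
      rw [pow_mul, Nat.add_sub_cancel, pow_succ]
      simp only [cond_true]
      norm_num
      ring
    rw [h3]
    rfl

end Pool.Agent.GV
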