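import Pool.Agent.GV.ALG.Lev
import Pool.Agent.GV.ALG.UW

/-!
# GV-ALG-Mats: the facts of `UW`, `Lev` in matrix form

Plan.
* `exists_rho`: for `1 ≤ j ≤ a - 1` (column `j - 1`) take `x` from `lev`; the coefficient at `X^0`
  of the left side is `Mcoef e a 0 j = 0` (`Mcoef_zero_succ`) plus the coefficient at `0` of
  `X^(a-j)`, `= 0` as `j < a`; on the right it is `x 0` (`G e a 0` has constant coefficient `1`,
  the others `0`).  So only `z ≥ 1` remain; compare the coefficients at `X^(i+1)`: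
  `ucol_coeff`, `Wlin_X_pow`; `cst e a` times the entry of `Wmat`.
* `exists_left_inv`: `Imat` restricted to its first `dd e a` rows (`dd e a ≤ a - 1`) is lower
  triangular with diagonal `1` (`G e a (z+1) = X^(z+1) * (1 + ...)`), hence has a left inverse
  (`Matrix.det` of a triangular matrix, nonsingular inverse; extend by zero columns).
* `M_W_I`: entry `(i, z)`: `UW_G e a (z+1)`: the coefficients of `Wlin e a (G e a (z+1))` are
  `Wmat * Imat` (at `X^(i+1)`, and `0` at `X^0` and at `X^a` since `G e a (z+1)` has coefficient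
  `0` at `X^a` and `X^0`: its degree is `≤ a - 2`), and `Ulin` of a polynomial `p` with
  `p_0 = p_a = 0` has coefficients `Mmat * (p_{i+1})` (`Ulin` unfolded, `ucol_coeff`).
-/

namespace Pool.Agent.GV

open Polynomial Matrix

/-- the cofactor of `X^z` in `G` -/
private noncomputable def Gq (e : Bool) (a z : ℕ) : ℚ[X] :=
  bif e then (1 - C 512 * X) * (1 + C 256 * X) ^ (a - 1 - 3 * z)
  else (1 + C 256 * X) ^ (a - 3 * z)

private lemma G_eq (e : Bool) (a z : ℕ) : G e a z = Gq e a z * X ^ z := by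
  cases e <;> rfl

private lemma Gq_zero (e : Bool) (a z : ℕ) : (Gq e a z).coeff 0 = 1 := by
  rw [coeff_zero_eq_eval_zero]
  cases e <;> simp [Gq]

private lemma G_low (e : Bool) (a z i : ℕ) (h : i < z) : (G e a z).coeff i = 0 := by
  rw [G_eq, coeff_mul_X_pow', if_neg (by omega)]

private lemma G_diag (e : Bool) (a z : ℕ) : (G e a z).coeff z = 1 := by
  rw [G_eq, coeff_mul_X_pow', if_pos le_rfl, Nat.sub_self, Gq_zero]

private lemma deg_one_add (m : ℕ) : ((1 + C 256 * X : ℚ[X]) ^ m).natDegree ≤ m := by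
  have h1 : (1 + C 256 * X : ℚ[X]).natDegree ≤ 1 := by
    refine (natDegree_add_le _ _).trans (max_le ?_ ?_)
    · rw [natDegree_one]
      norm_num
    · exact (natDegree_C_mul_le _ _).trans natDegree_X_le
  refine natDegree_pow_le.trans ?_
  calc m * (1 + C 256 * X : ℚ[X]).natDegree ≤ m * 1 := Nat.mul_le_mul_left _ h1
    _ = m := mul_one m

private lemma G_high (e : Bool) (a z : ℕ) (hz : 3 * (z + 1) + (bif e then 1 else 0) ≤ a) :
    (G e a (z + 1)).coeff a = 0 := by
  apply coeff_eq_zero_of_natDegree_lt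
  cases e
  · simp only [cond_false, add_zero] at hz
    have h1 := deg_one_add (a - 3 * (z + 1))
    have h2 : (G false a (z + 1)).natDegree ≤ (a - 3 * (z + 1)) + (z + 1) := by
      unfold G
      rw [cond_false]
      exact (natDegree_mul_le).trans (Nat.add_le_add h1 (natDegree_X_pow_le _))
    omega
  · simp only [cond_true] at hz
    have h1 := deg_one_add (a - 1 - 3 * (z + 1))
    have h0 : (1 - C 512 * X : ℚ[X]).natDegree ≤ 1 := by
      refine (natDegree_sub_le _ _).trans (max_le ?_ ?_)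
      · rw [natDegree_one]
        norm_num
      · exact (natDegree_C_mul_le _ _).trans natDegree_X_le
    have h2 : (G true a (z + 1)).natDegree ≤ 1 + (a - 1 - 3 * (z + 1)) + (z + 1) := by
      unfold G
      rw [cond_true]
      exact (natDegree_mul_le).trans (Nat.add_le_add ((natDegree_mul_le).trans
        (Nat.add_le_add h0 h1)) (natDegree_X_pow_le _))
    omega

private lemma dd_bound (e : Bool) (a z : ℕ) (hz : z < dd e a) :
    3 * (z + 1) + (bif e then 1 else 0) ≤ a := by
  cases e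
  · simp only [dd, cond_false] at hz ⊢
    omega
  · simp only [dd, cond_true] at hz ⊢
    omega

theorem exists_rho (e : Bool) (a : ℕ) (ha : 1 ≤ a) :
    ∃ r : Matrix (Fin (dd e a)) (Fin (a - 1)) ℚ, Mmat e a + cst e a • Wmat e a = Imat e a * r := by
  have hl : ∀ j : Fin (a - 1), ∃ x : ℕ → ℚ,
      ucol e a ((j : ℕ) + 1) + C (cst e a) * Wlin e a (X ^ ((j : ℕ) + 1)) =
        ∑ z ∈ Finset.range (dd e a + 1), C (x z) * G e a z :=
    fun j => lev e a _ (by have := j.2; omega) ha
  choose x hx using hl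
  refine ⟨Matrix.of fun z j => x j ((z : ℕ) + 1), ?_⟩
  ext i j
  have hj : (j : ℕ) + 1 < a := by have := j.2; omega
  have hi : (i : ℕ) + 1 < a := by have := i.2; omega
  have hxj := hx j
  rw [Wlin_X_pow e a _ hj.le] at hxj
  have h0 := congrArg (fun p => p.coeff 0) hxj
  simp only [coeff_add, coeff_C_mul, finset_sum_coeff, coeff_X_pow] at h0
  rw [ucol_coeff e a _ _ hj.le, Mcoef_zero_succ, if_neg (by omega), Finset.sum_range_succ',
    G_diag e a 0, Finset.sum_eq_zero fun z _ => by rw [G_low e a (z + 1) 0 (by omega), mul_zero]] at h0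
  have hx0 : x j 0 = 0 := by linarith
  have h1 := congrArg (fun p => p.coeff ((i : ℕ) + 1)) hxj
  simp only [coeff_add, coeff_C_mul, finset_sum_coeff, coeff_X_pow] at h1
  rw [ucol_coeff e a _ _ hj.le, Finset.sum_range_succ', hx0, zero_mul, add_zero,
    Finset.sum_range] at h1
  have h2 : (Imat e a * (Matrix.of fun (z : Fin (dd e a)) (j : Fin (a - 1)) =>
      x j ((z : ℕ) + 1))) i j = ∑ z : Fin (dd e a), x j ((z : ℕ) + 1) * (G e a ((z : ℕ) + 1)).coeff ((i : ℕ) + 1) := by
    rw [Matrix.mul_apply]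
    refine Finset.sum_congr rfl fun z _ => ?_
    rw [mul_comm]
    rfl
  rw [h2, ← h1]
  change Mcoef e a ((i : ℕ) + 1) ((j : ℕ) + 1) + cst e a * (if (i : ℕ) + j + 2 = a then
    sgn e * (64 ^ a / 4096 ^ ((j : ℕ) + 1)) else 0) = _
  congr 2
  by_cases h : (i : ℕ) + j + 2 = a
  · rw [if_pos h, if_pos (by omega), mul_one]
  · rw [if_neg h, if_neg (by omega), mul_zero]

theorem exists_left_inv (e : Bool) (a : ℕ) (ha : 1 ≤ a) :
    ∃ l : Matrix (Fin (dd e a)) (Fin (a - 1)) ℚ, l * Imat e a = 1 := by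
  have hd : dd e a ≤ a - 1 := by
    cases e
    · simp only [dd, cond_false]
      omega
    · simp only [dd, cond_true]
      omega
  let T : Matrix (Fin (dd e a)) (Fin (dd e a)) ℚ :=
    Matrix.of fun i z => (G e a ((z : ℕ) + 1)).coeff ((i : ℕ) + 1)
  let Q : Matrix (Fin (dd e a)) (Fin (a - 1)) ℚ :=
    Matrix.of fun i k => if k = Fin.castLE hd i then 1 else 0
  have hT : T.det = 1 := by
    rw [Matrix.det_of_lowerTriangular T]
    · exact Finset.prod_eq_one fun z _ => G_diag e a _
    · intro i z hiz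
      exact G_low e a _ _ (by
        have : (i : ℕ) < (z : ℕ) := hiz
        omega)
  have hQ : Q * Imat e a = T := by
    ext i z
    rw [Matrix.mul_apply, Finset.sum_eq_single (Fin.castLE hd i)]
    · change (if Fin.castLE hd i = Fin.castLE hd i then (1 : ℚ) else 0) * _ = _
      rw [if_pos rfl, one_mul]
      rfl
    · intro k _ hk
      change (if k = Fin.castLE hd i then (1 : ℚ) else 0) * _ = _
      rw [if_neg hk, zero_mul]
    · intro h
      exact absurd (Finset.mem_univ _) h
  refine ⟨T⁻¹ * Q, ?_⟩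
  rw [Matrix.mul_assoc, hQ]
  exact Matrix.nonsing_inv_mul T (by rw [hT]; exact isUnit_one)

private lemma Wlin_coeff (e : Bool) (a m : ℕ) (p : ℚ[X]) (hm : m ≤ a) :
    (Wlin e a p).coeff m = sgn e * p.coeff (a - m) * (64 ^ a / 4096 ^ (a - m)) := by
  unfold Wlin
  rw [finset_sum_coeff, Finset.sum_eq_single (a - m)]
  · rw [coeff_C_mul, coeff_X_pow, if_pos (by omega), mul_one]
  · intro k hk hkm
    rw [Finset.mem_range] at hk
    rw [coeff_C_mul, coeff_X_pow, if_neg (by omega), mul_zero]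
  · intro h
    exact absurd (Finset.mem_range.2 (by omega)) h

theorem M_W_I (e : Bool) (a : ℕ) (ha : 1 ≤ a) :
    Mmat e a * Wmat e a * Imat e a = (2 * cst e a) • Imat e a := by
  obtain ⟨b, rfl⟩ : ∃ b, a = b + 1 := ⟨a - 1, by omega⟩
  ext i z
  have hz := dd_bound e (b + 1) z z.2
  have h := congrArg (fun p => p.coeff ((i : ℕ) + 1)) (UW_G e (b + 1) ((z : ℕ) + 1) hz)
  simp only [coeff_C_mul] at h
  have hi : (i : ℕ) < b := i.2
  have hW : ∀ j : Fin (b + 1 - 1), (Wmat e (b + 1) * Imat e (b + 1)) j z =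
      (Wlin e (b + 1) (G e (b + 1) ((z : ℕ) + 1))).coeff ((j : ℕ) + 1) := by
    intro j
    have hj : (j : ℕ) < b := j.2
    have hk : b - 1 - (j : ℕ) < b + 1 - 1 := by omega
    rw [Wlin_coeff e _ _ _ (by omega), Matrix.mul_apply,
      Finset.sum_eq_single (⟨b - 1 - (j : ℕ), hk⟩ : Fin (b + 1 - 1))]
    · change (if (j : ℕ) + (b - 1 - (j : ℕ)) + 2 = b + 1 then
        sgn e * (64 ^ (b + 1) / 4096 ^ ((b - 1 - (j : ℕ)) + 1)) else 0) *
        (G e (b + 1) ((z : ℕ) + 1)).coeff ((b - 1 - (j : ℕ)) + 1) = _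
      rw [if_pos (by omega), show b - 1 - (j : ℕ) + 1 = b + 1 - ((j : ℕ) + 1) by omega]
      ring
    · intro k _ hkj
      change (if (j : ℕ) + (k : ℕ) + 2 = b + 1 then
        sgn e * (64 ^ (b + 1) / 4096 ^ ((k : ℕ) + 1)) else 0) * _ = _
      rw [if_neg, zero_mul]
      intro h
      apply hkj
      apply Fin.ext
      change (k : ℕ) = b - 1 - (j : ℕ)
      omega
    · intro h
      exact absurd (Finset.mem_univ _) h
  rw [Matrix.mul_assoc, Matrix.mul_apply, Matrix.smul_apply, smul_eq_mul]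
  change _ = 2 * cst e (b + 1) * (G e (b + 1) ((z : ℕ) + 1)).coeff ((i : ℕ) + 1)
  rw [← h]
  unfold Ulin
  rw [finset_sum_coeff, Finset.sum_range_succ, Finset.sum_range_succ', coeff_C_mul, coeff_C_mul,
    Wlin_coeff e (b + 1) (b + 1) _ le_rfl, Wlin_coeff e (b + 1) 0 _ (by omega), Nat.sub_self,
    Nat.sub_zero, G_low e (b + 1) _ 0 (by omega), G_high e (b + 1) z hz]
  simp only [mul_zero, zero_mul, add_zero]
  rw [Finset.sum_range]
  refine Finset.sum_congr rfl fun j _ => ?_
  have hj : (j : ℕ) < b := j.2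
  rw [hW j, coeff_C_mul, ucol_coeff e _ _ _ (by omega), mul_comm]
  rfl

end Pool.Agent.GV
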