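import Pool.Agent.GV.ALG.Defs
import Pool.Agent.GV.CM.Bshift

/-!
# GV-ALG-Rules: the two recursions of the matrix entries `Mcoef`

Plan: `Mcoef e a l j = 16^(2l-j) * w * B e a l j`.
* `Mcoef_rule1` is `B_shift` (file CM/Bshift, sorried there: use it) times a power of `16`
  (`16^(2(l+1)-j)`; `16 * 16^(2(l+1)-(j+1)) = 16^(2(l+1)-j)`, `256 * 16^(2l-j) = 16^(2(l+1)-j)`);
* `Mcoef_row_zero`: `B e a 0 0 = 2` (`e = 0`), `1` (`e = 1`), and `B e a 0 j = 0` for `j ≥ 1`;
* `Mcoef_rule2`: Pascal: with `N = j + l + 1 - a`, `r = 2 l - j`: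
  `B_{a+2}(l+1, j+2) = B_{a+1}(l, j+1) + B_a(l, j)` for all `l j` (cases `2l < j`, `2l = j`,
  `2l = j + 1` (`e = 1` only needs care), `2l > j + 1`), `bin_pascal`;
  for the row `0`: `Mcoef e (a+2) 0 (j+2) = 0`;
* `Mcoef_gt`: if `j ≤ a < l`: `bin N r = 0` for integers `0 ≤ N < r` (`P N r` contains the factor
  `N - N`), here `N = j + l - a ≥ 1`, `r = 2l - j > N`, and `N - 1 ≥ 0`, `N - 1 < r - 1`.
* initial values: numerical.
-/

namespace Pool.Agent.GV

private lemma zp_a (l j : ℕ) : (16 : ℚ) ^ (2 * ((l + 1 : ℕ) : ℤ) - (j : ℤ)) =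
    256 * 16 ^ (2 * (l : ℤ) - (j : ℤ)) := by
  have h : 2 * ((l + 1 : ℕ) : ℤ) - (j : ℤ) = 2 + (2 * (l : ℤ) - (j : ℤ)) := by push_cast; ring
  rw [h, zpow_add₀ (by norm_num)]
  norm_num

private lemma zp_b (l j : ℕ) : (16 : ℚ) ^ (2 * ((l + 1 : ℕ) : ℤ) - ((j + 1 : ℕ) : ℤ)) =
    16 * 16 ^ (2 * (l : ℤ) - (j : ℤ)) := by
  have h : 2 * ((l + 1 : ℕ) : ℤ) - ((j + 1 : ℕ) : ℤ) = 1 + (2 * (l : ℤ) - (j : ℤ)) := by
    push_cast; ring
  rw [h, zpow_add₀ (by norm_num)]
  norm_num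

private lemma zp_c (l j : ℕ) : (16 : ℚ) ^ (2 * ((l + 1 : ℕ) : ℤ) - ((j + 2 : ℕ) : ℤ)) =
    16 ^ (2 * (l : ℤ) - (j : ℤ)) := by
  have h : 2 * ((l + 1 : ℕ) : ℤ) - ((j + 2 : ℕ) : ℤ) = 2 * (l : ℤ) - (j : ℤ) := by
    push_cast; ring
  rw [h]

private lemma zp_d (l j : ℕ) : (16 : ℚ) * 16 ^ (2 * (l : ℤ) - ((j + 1 : ℕ) : ℤ)) =
    16 ^ (2 * (l : ℤ) - (j : ℤ)) := by
  have h : 2 * (l : ℤ) - (j : ℤ) = 1 + (2 * (l : ℤ) - ((j + 1 : ℕ) : ℤ)) := by
    push_cast; ring
  rw [h, zpow_add₀ (by norm_num)]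
  norm_num

theorem Mcoef_rule1 (e : Bool) (a l j : ℕ) :
    Mcoef e (a + 1) (l + 1) j + 16 * Mcoef e (a + 1) (l + 1) (j + 1) =
      Mcoef e a (l + 1) j + 256 * Mcoef e a l j := by
  have h := B_shift e (a : ℚ) l j
  have hc : ((a + 1 : ℕ) : ℚ) = (a : ℚ) + 1 := by push_cast; ring
  unfold Mcoef
  rw [zp_a, zp_b, hc]
  linear_combination (256 * (16 : ℚ) ^ (2 * (l : ℤ) - (j : ℤ)) * (bif e then 1 else 1 / 2)) * h

theorem Mcoef_zero_zero (e : Bool) (a : ℕ) : Mcoef e a 0 0 = 1 := by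
  cases e
  · simp only [Mcoef, B, B0, cond_false]
    norm_num [bin_zero]
  · simp only [Mcoef, B, B1, cond_true]
    norm_num [bin_zero]

private lemma B_gt (e : Bool) (a : ℚ) (l j : ℕ) (h : 2 * l < j) : B e a l j = 0 := by
  cases e
  · simp only [B, B0, cond_false]
    rw [if_pos h]
  · simp only [B, B1, cond_true]
    rw [if_pos h]

theorem Mcoef_zero_succ (e : Bool) (a j : ℕ) : Mcoef e a 0 (j + 1) = 0 := by
  unfold Mcoef
  rw [B_gt e a 0 (j + 1) (by omega), mul_zero]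

private lemma B_le (e : Bool) (a : ℚ) (l j r : ℕ) (h : 2 * l = j + r) :
    B e a l j = bif e then bin ((j : ℚ) + l - a) r +
      (if r = 0 then 0 else bin ((j : ℚ) + l - a - 1) (r - 1))
      else bin ((j : ℚ) + l - a) r + bin ((j : ℚ) + l - a - 1) r := by
  have h1 : ¬ 2 * l < j := by omega
  have h2 : 2 * l - j = r := by omega
  cases e
  · simp only [B, B0, cond_false]
    rw [if_neg h1, h2]
  · simp only [B, B1, cond_true]
    rw [if_neg h1, h2]
    by_cases hr : r = 0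
    · rw [if_pos (show 2 * l = j by omega), if_pos hr]
    · rw [if_neg (show ¬ 2 * l = j by omega), if_neg hr]

private lemma B_rec (e : Bool) (a : ℚ) (l j : ℕ) :
    B e (a + 2) (l + 1) (j + 2) = B e (a + 1) l (j + 1) + B e a l j := by
  rcases lt_or_ge (2 * l) j with h | h
  · rw [B_gt e _ _ _ h, B_gt e _ l (j + 1) (by omega), B_gt e _ (l + 1) (j + 2) (by omega),
      add_zero]
  · obtain ⟨r, hr⟩ := Nat.exists_eq_add_of_le h
    rcases r with _ | r
    · rw [B_gt e _ l (j + 1) (by omega), B_le e _ (l + 1) (j + 2) 0 (by omega),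
        B_le e _ l j 0 (by omega)]
      cases e <;> simp [bin_zero]
    · rw [B_le e _ l (j + 1) r (by omega), B_le e _ (l + 1) (j + 2) (r + 1) (by omega),
        B_le e _ l j (r + 1) (by omega)]
      have h1 : ((j + 2 : ℕ) : ℚ) + ((l + 1 : ℕ) : ℚ) - (a + 2) = (j : ℚ) + l - a + 1 := by
        push_cast; ring
      have h2 : ((j + 1 : ℕ) : ℚ) + (l : ℚ) - (a + 1) = (j : ℚ) + l - a := by
        push_cast; ring
      rw [h1, h2]
      have p1 := bin_pascal ((j : ℚ) + l - a + 1) r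
      rw [add_sub_cancel_right] at p1
      have p2 := bin_pascal ((j : ℚ) + l - a) r
      cases e
      · simp only [cond_false]
        rw [add_sub_cancel_right, p1]
        linear_combination p2
      · simp only [cond_true, Nat.add_sub_cancel, if_neg (Nat.succ_ne_zero r)]
        rw [add_sub_cancel_right, p1]
        rcases r with _ | r
        · simp only [bin_zero, if_pos]
          ring
        · have p3 := bin_pascal ((j : ℚ) + l - a) r
          rw [if_neg (Nat.succ_ne_zero r), Nat.add_sub_cancel]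
          linear_combination p3

theorem Mcoef_rule2 (e : Bool) (a l j : ℕ) :
    Mcoef e (a + 2) (l + 1) (j + 2) = 16 * Mcoef e (a + 1) l (j + 1) + Mcoef e a l j := by
  have h := B_rec e (a : ℚ) l j
  have hc : ((a + 1 : ℕ) : ℚ) = (a : ℚ) + 1 := by push_cast; ring
  have hc2 : ((a + 2 : ℕ) : ℚ) = (a : ℚ) + 2 := by push_cast; ring
  unfold Mcoef
  rw [zp_c, hc, hc2, ← mul_assoc, ← mul_assoc, zp_d, h]
  ring

private lemma bin_nat_zero (N r : ℕ) (h : N < r) (x : ℚ) (hx : x = N) : bin x r = 0 := by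
  subst hx
  unfold bin P
  rw [Finset.prod_eq_zero (Finset.mem_range.2 h) (sub_self _), zero_div]

private lemma B_zero (e : Bool) (a l j N r : ℕ) (h : 2 * l = j + (r + 1)) (hN : N + 1 + a = j + l)
    (hr : N < r) : B e (a : ℚ) l j = 0 := by
  rw [B_le e _ l j (r + 1) h]
  have h1 : (j : ℚ) + l - a = ((N + 1 : ℕ) : ℚ) := by
    have h2 : ((N + 1 + a : ℕ) : ℚ) = ((j + l : ℕ) : ℚ) := by rw [hN]
    push_cast at h2 ⊢
    linarith
  have h3 : (j : ℚ) + l - a - 1 = (N : ℚ) := by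
    rw [h1]; push_cast; ring
  cases e
  · simp only [cond_false]
    rw [bin_nat_zero (N + 1) (r + 1) (by omega) _ h1, bin_nat_zero N (r + 1) (by omega) _ h3,
      add_zero]
  · simp only [cond_true, Nat.add_sub_cancel, if_neg (Nat.succ_ne_zero r)]
    rw [bin_nat_zero (N + 1) (r + 1) (by omega) _ h1, bin_nat_zero N r (by omega) _ h3,
      add_zero]

theorem Mcoef_gt (e : Bool) (a l j : ℕ) (hj : j ≤ a) (hl : a < l) : Mcoef e a l j = 0 := by
  unfold Mcoef
  rw [B_zero e a l j (j + l - a - 1) (2 * l - j - 1) (by omega) (by omega) (by omega), mul_zero]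

/-- the last row is zero except in the last column -/
theorem Mcoef_last (e : Bool) (a j : ℕ) (hj : j < a) (hj1 : 1 ≤ j) : Mcoef e a a j = 0 := by
  unfold Mcoef
  rw [B_zero e a a j (j - 1) (2 * a - j - 1) (by omega) (by omega) (by omega), mul_zero]

theorem Mcoef_one_one (e : Bool) : Mcoef e 1 1 1 = bif e then 32 else 8 := by
  unfold Mcoef
  rw [B_le e _ 1 1 1 (by norm_num)]
  cases e
  · simp only [cond_false]
    norm_num [bin, P_one]
  · simp only [cond_true]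
    norm_num [bin, P_one]

end Pool.Agent.GV
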