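import Pool.Agent.GV.ALG.Rules

/-!
# GV-ALG-Ucol: the recursions for `Ulin`

Plan.  First `ucol_rule1 : ucol e (a+1) j + 16 ucol e (a+1) (j+1) = (1 + 256 X) ucol e a j` for
`j ≤ a` and `ucol_rule2 : ucol e (a+2) (j+2) = 16 X ucol e (a+1) (j+1) + X ucol e a j` for `j ≤ a`
(compare coefficients: `coeff (ucol e a j) l = Mcoef e a l j` for ALL `l` when `j ≤ a` by
`Mcoef_gt`; `Polynomial.ext`, `coeff_X_mul`, cases `l = 0`, `l + 1`).
Then the linear versions: expand `Ulin` in coefficients;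
`p * (1 + 16 X)` has coefficients `p_j + 16 p_{j-1}`; sum over `j ≤ a + 1`, with `p_j = 0` for
`j > a`.  `Ulin_rule3` from rule1 (for `X p`) and rule2 (twice) by the following computation:
`U_{a+3}(X²p) = 16 X U_{a+2}(X p) + X U_{a+1}(p)`,
`U_{a+2}(X p) = (1+256X) U_{a+1}(X p) - 16 U_{a+2}(X² p) = U_{a+1}(X p) - 16 X U_a(p)`,
`U_{a+1}(p) = (1+256X) U_a(p) - 16 U_{a+1}(X p)`, total `X U_a(p)`.
(`p * (1+16X)`: rule1 says `U_{a+1}(p) + 16 U_{a+1}(X p) = (1+256X) U_a(p)`.)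
-/

namespace Pool.Agent.GV

open Polynomial

theorem Ulin_add (e : Bool) (a : ℕ) (p q : ℚ[X]) :
    Ulin e a (p + q) = Ulin e a p + Ulin e a q := by
  unfold Ulin
  rw [← Finset.sum_add_distrib]
  refine Finset.sum_congr rfl fun j _ => ?_
  rw [coeff_add, C_add, add_mul]

theorem Ulin_C_mul (e : Bool) (a : ℕ) (x : ℚ) (p : ℚ[X]) :
    Ulin e a (C x * p) = C x * Ulin e a p := by
  unfold Ulin
  rw [Finset.mul_sum]
  refine Finset.sum_congr rfl fun j _ => ?_
  rw [coeff_C_mul, C_mul, mul_assoc]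

theorem Ulin_X_pow (e : Bool) (a j : ℕ) (hj : j ≤ a) : Ulin e a (X ^ j) = ucol e a j := by
  unfold Ulin
  rw [Finset.sum_eq_single j]
  · rw [coeff_X_pow_self, C_1, one_mul]
  · intro i _ hi
    rw [coeff_X_pow, if_neg hi, C_0, zero_mul]
  · intro h
    exact absurd (Finset.mem_range.2 (by omega)) h

theorem ucol_coeff (e : Bool) (a j l : ℕ) (hj : j ≤ a) : (ucol e a j).coeff l = Mcoef e a l j := by
  unfold ucol
  rw [finsetSum_coeff]
  simp only [coeff_C_mul_X_pow]
  rw [Finset.sum_ite_eq]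
  split_ifs with h
  · rfl
  · rw [Finset.mem_range] at h
    exact (Mcoef_gt e a l j hj (by omega)).symm

private theorem ucol_zero_coeff (e : Bool) (a b j : ℕ) : Mcoef e a 0 j = Mcoef e b 0 j := by
  cases j with
  | zero => rw [Mcoef_zero_zero, Mcoef_zero_zero]
  | succ j => rw [Mcoef_zero_succ, Mcoef_zero_succ]

theorem ucol_rule1 (e : Bool) (a j : ℕ) (hj : j ≤ a) :
    ucol e (a + 1) j + C 16 * ucol e (a + 1) (j + 1) = (1 + C 256 * X) * ucol e a j := by
  ext l
  rw [add_mul, one_mul, mul_assoc, coeff_add, coeff_add, coeff_C_mul, coeff_C_mul,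
    ucol_coeff e (a + 1) j l (by omega), ucol_coeff e (a + 1) (j + 1) l (by omega),
    ucol_coeff e a j l hj]
  cases l with
  | zero =>
    rw [Mcoef_zero_succ, mul_coeff_zero, coeff_X_zero, ucol_zero_coeff e (a + 1) a j]
    ring
  | succ l =>
    rw [coeff_X_mul, ucol_coeff e a j l hj]
    exact Mcoef_rule1 e a l j

theorem ucol_rule2 (e : Bool) (a j : ℕ) (hj : j ≤ a) :
    ucol e (a + 2) (j + 2) = C 16 * X * ucol e (a + 1) (j + 1) + X * ucol e a j := by
  ext l
  rw [mul_assoc, coeff_add, coeff_C_mul, ucol_coeff e (a + 2) (j + 2) l (by omega)]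
  cases l with
  | zero =>
    rw [Mcoef_zero_succ, mul_coeff_zero, mul_coeff_zero, coeff_X_zero]
    ring
  | succ l =>
    rw [coeff_X_mul, coeff_X_mul, ucol_coeff e a j l hj,
      ucol_coeff e (a + 1) (j + 1) l (by omega)]
    exact Mcoef_rule2 e a l j

theorem ucol_zero_zero (e : Bool) : ucol e 0 0 = 1 := by
  unfold ucol
  rw [Finset.sum_range_succ, Finset.sum_range_zero, zero_add, Mcoef_zero_zero, C_1, pow_zero,
    one_mul]

theorem ucol_one_one (e : Bool) : ucol e 1 1 = C (bif e then 32 else 8) * X := by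
  unfold ucol
  rw [Finset.sum_range_succ, Finset.sum_range_succ, Finset.sum_range_zero, zero_add,
    Mcoef_zero_succ, Mcoef_one_one, C_0, zero_mul, zero_add, pow_one]

private theorem Ulin_zero (e : Bool) (a : ℕ) : Ulin e a 0 = 0 := by
  unfold Ulin
  refine Finset.sum_eq_zero fun j _ => ?_
  rw [coeff_zero, C_0, zero_mul]

private theorem Ulin_sum (e : Bool) (a : ℕ) (s : Finset ℕ) (f : ℕ → ℚ[X]) :
    Ulin e a (∑ i ∈ s, f i) = ∑ i ∈ s, Ulin e a (f i) := by
  induction s using Finset.induction_on with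
  | empty => rw [Finset.sum_empty, Finset.sum_empty, Ulin_zero]
  | insert i s hi ih => rw [Finset.sum_insert hi, Finset.sum_insert hi, Ulin_add, ih]

private theorem Ulin_expand (e : Bool) (a b : ℕ) (p q : ℚ[X]) (hp : p.natDegree ≤ a) :
    Ulin e b (p * q) = ∑ j ∈ Finset.range (a + 1), C (p.coeff j) * Ulin e b (X ^ j * q) := by
  conv_lhs => rw [p.as_sum_range_C_mul_X_pow' (show p.natDegree < a + 1 by omega)]
  rw [Finset.sum_mul, Ulin_sum]
  refine Finset.sum_congr rfl fun j _ => ?_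
  rw [mul_assoc, Ulin_C_mul]

theorem Ulin_rule1 (e : Bool) (a : ℕ) (p : ℚ[X]) (hp : p.natDegree ≤ a) :
    Ulin e (a + 1) (p * (1 + C 16 * X)) = (1 + C 256 * X) * Ulin e a p := by
  rw [Ulin_expand e a (a + 1) p _ hp]
  conv_rhs => unfold Ulin
  rw [Finset.mul_sum]
  refine Finset.sum_congr rfl fun j hj => ?_
  have hj' : j ≤ a := by have := Finset.mem_range.1 hj; omega
  have h1 : (X ^ j * (1 + C 16 * X) : ℚ[X]) = X ^ j + C 16 * X ^ (j + 1) := by ring
  rw [h1, Ulin_add, Ulin_C_mul, Ulin_X_pow e (a + 1) j (by omega),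
    Ulin_X_pow e (a + 1) (j + 1) (by omega), ucol_rule1 e a j hj']
  ring

theorem Ulin_rule2 (e : Bool) (a : ℕ) (p : ℚ[X]) (hp : p.natDegree ≤ a) :
    Ulin e (a + 2) (p * X ^ 2) = C 16 * X * Ulin e (a + 1) (p * X) + X * Ulin e a p := by
  rw [Ulin_expand e a (a + 2) p _ hp, Ulin_expand e a (a + 1) p _ hp]
  conv_rhs => unfold Ulin
  rw [Finset.mul_sum, Finset.mul_sum, ← Finset.sum_add_distrib]
  refine Finset.sum_congr rfl fun j hj => ?_
  have hj' : j ≤ a := by have := Finset.mem_range.1 hj; omega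
  have h2 : Ulin e (a + 1) (X ^ j * X) = ucol e (a + 1) (j + 1) := by
    rw [← pow_succ, Ulin_X_pow e (a + 1) (j + 1) (by omega)]
  unfold Ulin at h2
  rw [h2, ← pow_add, Ulin_X_pow e (a + 2) (j + 2) (by omega), ucol_rule2 e a j hj']
  ring

theorem Ulin_rule3 (e : Bool) (a : ℕ) (p : ℚ[X]) (hp : p.natDegree ≤ a) :
    Ulin e (a + 3) (p * X ^ 2) = X * Ulin e a p := by
  have hpX : (p * X).natDegree ≤ a + 1 := by
    refine (natDegree_mul_le).trans ?_
    rw [natDegree_X]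
    omega
  have k1 := Ulin_rule2 e (a + 1) p (by omega)
  have k2 := Ulin_rule1 e (a + 1) (p * X) hpX
  have k3 := Ulin_rule2 e a p hp
  have k4 := Ulin_rule1 e a p hp
  have e2 : p * X * (1 + C 16 * X) = p * X + C 16 * (p * X ^ 2) := by ring
  have e4 : p * (1 + C 16 * X) = p + C 16 * (p * X) := by ring
  rw [e2, Ulin_add, Ulin_C_mul] at k2
  rw [e4, Ulin_add, Ulin_C_mul] at k4
  have c : (C 256 : ℚ[X]) = C 16 * C 16 := by
    rw [← C_mul]
    norm_num
  rw [c] at k2 k4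
  rw [show a + 3 = a + 1 + 2 by omega, k1, show a + 1 + 1 = a + 2 by omega]
  rw [show a + 1 + 1 = a + 2 by omega] at k2
  linear_combination (C 16 * X) * k2 - (C 16 * C 16 * X) * k3 + X * k4

end Pool.Agent.GV
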